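import Pool.Agent.H43.Den3

open Pool.Agent.H43.Den

namespace Pool.Agent.Results.MP_fd67f7_an.Cex

theorem result : ∃ (X : Type) (_ : MetricSpace X) (f : X → X), Dendrite X ∧ Continuous f ∧
    (∃ S : Set X, ¬ S.Countable ∧ S.Pairwise (DC25 f)) ∧ ¬ ∃ x y, DC2 f x y := by
  obtain ⟨D, _, F, a, b, c, e⟩ := dc25
  exact ⟨D, _, F, a, b, c, fun ⟨x, y, h⟩ => e x y h⟩

end Pool.Agent.Results.MP_fd67f7_an.Cex
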